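import Pool.Agent.H606.AV.Stm5

set_option autoImplicit false

/-! # Project AV (helper606): division by Blaschke factors -/

open Complex Filter Topology Metric Set MeasureTheory

namespace Pool.Agent.H152.AV

open Pool.Agent.H606.AV

noncomputable section

/-- the denominator of a Blaschke factor -/
def Nw (c : ℂ) (R : ℝ) (w z : ℂ) : ℂ :=
  (((R ^ 2 : ℝ) : ℂ) - (starRingEnd ℂ) (w - c) * (z - c)) / (R : ℂ)

theorem Nw_sq (c : ℂ) (R : ℝ) (hR : 0 < R) (w z : ℂ) :
    ‖Nw c R w z‖ ^ 2 = ‖z - w‖ ^ 2 + (R ^ 2 - ‖w - c‖ ^ 2) * (R ^ 2 - ‖z - c‖ ^ 2) / R ^ 2 := by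
  have key : ∀ a u : ℂ, ‖((R ^ 2 : ℝ) : ℂ) - (starRingEnd ℂ) a * u‖ ^ 2 =
      R ^ 2 * ‖u - a‖ ^ 2 + (R ^ 2 - ‖a‖ ^ 2) * (R ^ 2 - ‖u‖ ^ 2) := by
    intro a u
    simp only [← Complex.normSq_eq_norm_sq, Complex.normSq_apply, Complex.sub_re, Complex.sub_im,
      Complex.mul_re, Complex.mul_im, Complex.conj_re, Complex.conj_im, Complex.ofReal_re,
      Complex.ofReal_im]
    ring
  unfold Nw
  rw [norm_div, div_pow, key (w - c) (z - c), Complex.norm_real, Real.norm_of_nonneg hR.le]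
  have h1 : z - c - (w - c) = z - w := by ring
  rw [h1]
  field_simp

theorem le_Nw (c : ℂ) (R : ℝ) (hR : 0 < R) (w z : ℂ) (hw : w ∈ ball c R) (hz : z ∈ ball c R) :
    ‖z - w‖ ≤ ‖Nw c R w z‖ ∧ Nw c R w z ≠ 0 := by
  rw [mem_ball_iff_norm] at hw hz
  have h1 : 0 < (R ^ 2 - ‖w - c‖ ^ 2) * (R ^ 2 - ‖z - c‖ ^ 2) / R ^ 2 := by
    have h2 : 0 < R ^ 2 - ‖w - c‖ ^ 2 := by nlinarith [norm_nonneg (w - c)]
    have h3 : 0 < R ^ 2 - ‖z - c‖ ^ 2 := by nlinarith [norm_nonneg (z - c)]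
    positivity
  have h4 := Nw_sq c R hR w z
  constructor
  · refine le_of_sq_le_sq ?_ (norm_nonneg _)
    rw [h4]
    linarith
  · intro h5
    rw [h5, norm_zero] at h4
    nlinarith [sq_nonneg ‖z - w‖]

theorem Nw_le (c : ℂ) (R : ℝ) (hR : 0 < R) (w z : ℂ) (hw : w ∈ ball c R) (hz : z ∈ ball c R) :
    ‖Nw c R w z‖ ≤ 2 * R := by
  rw [mem_ball_iff_norm] at hw hz
  unfold Nw
  rw [norm_div, Complex.norm_real, Real.norm_of_nonneg hR.le, div_le_iff₀ hR]
  refine (norm_sub_le _ _).trans ?_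
  rw [norm_mul, Complex.norm_real, Real.norm_of_nonneg (by positivity)]
  have h1 : ‖(starRingEnd ℂ) (w - c)‖ = ‖w - c‖ := Complex.norm_conj _
  rw [h1]
  have h2 : ‖w - c‖ * ‖z - c‖ ≤ R * R :=
    mul_le_mul hw.le hz.le (norm_nonneg _) hR.le
  nlinarith

/-- the factor -/
def Fac (c : ℂ) (R : ℝ) (w : ℂ) (r : ℝ) : ℝ :=
  Real.sqrt (1 + (R ^ 2 - r ^ 2) / (r - ‖w - c‖) ^ 2)

theorem Nw_circle (c : ℂ) (R : ℝ) (hR : 0 < R) (w z : ℂ) (r : ℝ) (hw : ‖w - c‖ < r) (hr : r < R)
    (hz : ‖z - c‖ = r) : ‖Nw c R w z‖ ≤ ‖z - w‖ * Fac c R w r := by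
  have hw0 := norm_nonneg (w - c)
  have hr0 : 0 < r := by linarith
  have h1 : 0 < R ^ 2 - r ^ 2 := by nlinarith
  have h2 : r - ‖w - c‖ ≤ ‖z - w‖ := by
    have h3 := norm_sub_norm_le (z - c) (w - c)
    have h4 : z - c - (w - c) = z - w := by ring
    rw [h4, hz] at h3
    exact h3
  have h5 : 0 < r - ‖w - c‖ := by linarith
  have h6 : 0 ≤ 1 + (R ^ 2 - r ^ 2) / (r - ‖w - c‖) ^ 2 := by positivity
  refine le_of_sq_le_sq ?_ (mul_nonneg (norm_nonneg _) (Real.sqrt_nonneg _))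
  rw [Nw_sq c R hR w z, hz, mul_pow, Fac, Real.sq_sqrt h6, mul_add, mul_one]
  have h7 : (R ^ 2 - ‖w - c‖ ^ 2) * (R ^ 2 - r ^ 2) / R ^ 2 ≤ R ^ 2 - r ^ 2 := by
    rw [div_le_iff₀ (by positivity)]
    nlinarith [mul_nonneg (sq_nonneg ‖w - c‖) h1.le]
  have h8 : R ^ 2 - r ^ 2 ≤ ‖z - w‖ ^ 2 * ((R ^ 2 - r ^ 2) / (r - ‖w - c‖) ^ 2) := by
    rw [mul_div_assoc', le_div_iff₀ (by positivity), mul_comm]
    refine mul_le_mul_of_nonneg_right ?_ h1.le
    exact pow_le_pow_left₀ h5.le h2 2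
  linarith

theorem Fac_nonneg (c : ℂ) (R : ℝ) (w : ℂ) (r : ℝ) : 0 ≤ Fac c R w r := Real.sqrt_nonneg _

theorem Fac_tend (c : ℂ) (R : ℝ) (w : ℂ) (hw : w ∈ ball c R) :
    Tendsto (fun r => Fac c R w r) (𝓝[<] R) (𝓝 1) := by
  rw [mem_ball_iff_norm] at hw
  have h1 : ContinuousAt (fun r => Fac c R w r) R := by
    unfold Fac
    refine Real.continuous_sqrt.continuousAt.comp ?_
    refine ContinuousAt.add continuousAt_const ?_
    refine ContinuousAt.div (by fun_prop) (by fun_prop) ?_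
    have : 0 < R - ‖w - c‖ := by linarith
    positivity
  have h2 : Fac c R w R = 1 := by simp [Fac]
  have h3 : Tendsto (fun r => Fac c R w r) (𝓝 R) (𝓝 (Fac c R w R)) := h1
  rw [h2] at h3
  exact h3.mono_left nhdsWithin_le_nhds

/-- comparison of products -/
theorem prod_le (s : Multiset ℂ) (f f' : ℂ → ℂ) (F : ℂ → ℝ) (hF : ∀ w, 0 ≤ F w)
    (h : ∀ w ∈ s, ‖f w‖ ≤ ‖f' w‖ * F w) :
    ‖(s.map f).prod‖ ≤ ‖(s.map f').prod‖ * (s.map F).prod := by
  induction s using Multiset.induction_on with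
  | empty => simp
  | cons w s ih =>
    rw [Multiset.map_cons, Multiset.prod_cons, Multiset.map_cons, Multiset.prod_cons,
      Multiset.map_cons, Multiset.prod_cons, norm_mul, norm_mul]
    have h1 := ih (fun w' hw' => h w' (Multiset.mem_cons_of_mem hw'))
    have h2 := h w (Multiset.mem_cons_self w s)
    calc ‖f w‖ * ‖(s.map f).prod‖ ≤ (‖f' w‖ * F w) * (‖(s.map f').prod‖ * (s.map F).prod) :=
          mul_le_mul h2 h1 (norm_nonneg _) (mul_nonneg (norm_nonneg _) (hF w))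
      _ = ‖f' w‖ * ‖(s.map f').prod‖ * (F w * (s.map F).prod) := by ring

theorem diff_prod (c : ℂ) (R : ℝ) (s : Multiset ℂ) :
    Differentiable ℂ (fun z => (s.map (fun w => Nw c R w z)).prod) := by
  induction s using Multiset.induction_on with
  | empty => simp
  | cons w s ih =>
    simp only [Multiset.map_cons, Multiset.prod_cons]
    refine Differentiable.mul ?_ ih
    unfold Nw
    fun_prop

theorem prod_ne (c : ℂ) (R : ℝ) (s : Multiset ℂ) (z : ℂ) (h : ∀ w ∈ s, Nw c R w z ≠ 0) :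
    (s.map (fun w => Nw c R w z)).prod ≠ 0 := by
  refine Multiset.prod_ne_zero ?_
  intro h0
  obtain ⟨w, hw, hw0⟩ := Multiset.mem_map.1 h0
  exact h w hw hw0

open Classical in
theorem count_le (c : ℂ) (R r : ℝ) (hr : 0 < r) (hrR : r < R) (s : Multiset ℂ)
    (hs : ∀ w ∈ s, w ∈ ball c R) :
    (R / r) ^ (s.filter (fun w => w ∈ closedBall c r)).card * ‖(s.map (fun w => c - w)).prod‖ ≤
      R ^ s.card := by
  have hR : 0 < R := hr.trans hrR
  induction s using Multiset.induction_on with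
  | empty => simp
  | cons w s ih =>
    have h1 := ih (fun w' hw' => hs w' (Multiset.mem_cons_of_mem hw'))
    have h2 := hs w (Multiset.mem_cons_self w s)
    rw [mem_ball_iff_norm] at h2
    rw [Multiset.map_cons, Multiset.prod_cons, norm_mul, Multiset.card_cons, pow_succ]
    have hn : ‖c - w‖ = ‖w - c‖ := norm_sub_rev _ _
    by_cases hw : w ∈ closedBall c r
    · rw [Multiset.filter_cons_of_pos _ hw, Multiset.card_cons, pow_succ]
      rw [mem_closedBall_iff_norm] at hw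
      have h3 : R / r * ‖c - w‖ ≤ R := by
        rw [hn, div_mul_eq_mul_div, div_le_iff₀ hr]
        exact mul_le_mul_of_nonneg_left hw hR.le
      calc (R / r) ^ (s.filter (fun w => w ∈ closedBall c r)).card * (R / r) *
            (‖c - w‖ * ‖(s.map (fun w => c - w)).prod‖) =
            ((R / r) ^ (s.filter (fun w => w ∈ closedBall c r)).card *
              ‖(s.map (fun w => c - w)).prod‖) * (R / r * ‖c - w‖) := by ring
        _ ≤ R ^ s.card * R := mul_le_mul h1 h3 (by positivity) (by positivity)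
    · rw [Multiset.filter_cons_of_neg _ hw]
      calc (R / r) ^ (s.filter (fun w => w ∈ closedBall c r)).card *
            (‖c - w‖ * ‖(s.map (fun w => c - w)).prod‖) =
            ((R / r) ^ (s.filter (fun w => w ∈ closedBall c r)).card *
              ‖(s.map (fun w => c - w)).prod‖) * ‖c - w‖ := by ring
        _ ≤ R ^ s.card * R := mul_le_mul h1 (by rw [hn]; exact h2.le) (norm_nonneg _) (by positivity)

theorem S_BLA_proof (h : S_FACB) : S_BLA := by
  classical
  intro g c R hR hg hgc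
  obtain ⟨s, k, hk, hfac, hk0, hs, hNm⟩ := h g c R hR hg hgc
  have hsb : ∀ w ∈ s, w ∈ ball c R := fun w hw => (hs w hw).1
  have hcb : c ∈ ball c R := mem_ball_self hR
  set b : ℂ → ℂ := fun z => k z * (s.map (fun w => Nw c R w z)).prod with hb
  have hbd : Differentiable ℂ b := hk.mul (diff_prod c R s)
  have hb3 : ∀ S : ℝ, (∀ z ∈ ball c R, ‖g z‖ ≤ S) → ∀ z ∈ ball c R, ‖b z‖ ≤ S := by
    intro S hS z0 hz0
    have hS0 : 0 ≤ S := (norm_nonneg _).trans (hS c hcb)
    have hlim : Tendsto (fun r => S * (s.map (fun w => Fac c R w r)).prod) (𝓝[<] R) (𝓝 (S * 1)) := by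
      refine Tendsto.const_mul S ?_
      have h1 := tendsto_multiset_prod (f := fun (w : ℂ) (r : ℝ) => Fac c R w r)
        (x := 𝓝[<] R) (a := fun _ => (1 : ℝ)) s (fun w hw => Fac_tend c R w (hsb w hw))
      simpa using h1
    rw [mul_one] at hlim
    refine ge_of_tendsto hlim ?_
    have hz0' : ‖z0 - c‖ < R := mem_ball_iff_norm.1 hz0
    have hev1 : ∀ᶠ r in 𝓝[<] R, ‖z0 - c‖ < r :=
      nhdsWithin_le_nhds (lt_mem_nhds hz0')
    have hev2 : ∀ᶠ r in 𝓝[<] R, ∀ w ∈ s.toFinset, ‖w - c‖ < r := by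
      rw [Filter.eventually_all_finset]
      intro w hw
      exact nhdsWithin_le_nhds (lt_mem_nhds (mem_ball_iff_norm.1 (hsb w (Multiset.mem_toFinset.1 hw))))
    have hev3 : ∀ᶠ r in 𝓝[<] R, r < R := self_mem_nhdsWithin
    filter_upwards [hev1, hev2, hev3] with r hr1 hr2 hr3
    have hr0 : 0 < r := (norm_nonneg _).trans_lt hr1
    refine Complex.norm_le_of_forall_mem_frontier_norm_le (U := ball c r) isBounded_ball
      hbd.diffContOnCl (fun z hz => ?_) (subset_closure (mem_ball_iff_norm.2 hr1))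
    rw [frontier_ball c hr0.ne', mem_sphere_iff_norm] at hz
    have hzb : z ∈ ball c R := by
      rw [mem_ball_iff_norm, hz]
      exact hr3
    have h2 := prod_le s (fun w => Nw c R w z) (fun w => z - w) (fun w => Fac c R w r)
      (fun w => Fac_nonneg c R w r)
      (fun w hw => Nw_circle c R hR w z r (hr2 w (Multiset.mem_toFinset.2 hw)) hr3 hz)
    have hF0 : 0 ≤ (s.map (fun w => Fac c R w r)).prod := by
      refine Multiset.prod_nonneg (fun x hx => ?_)
      obtain ⟨w, _, rfl⟩ := Multiset.mem_map.1 hx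
      exact Fac_nonneg c R w r
    calc ‖b z‖ = ‖k z‖ * ‖(s.map (fun w => Nw c R w z)).prod‖ := by rw [hb]; exact norm_mul _ _
      _ ≤ ‖k z‖ * (‖(s.map (fun w => z - w)).prod‖ * (s.map (fun w => Fac c R w r)).prod) :=
          mul_le_mul_of_nonneg_left h2 (norm_nonneg _)
      _ = ‖g z‖ * (s.map (fun w => Fac c R w r)).prod := by
          rw [hfac z, norm_mul, mul_assoc]
      _ ≤ S * (s.map (fun w => Fac c R w r)).prod := mul_le_mul_of_nonneg_right (hS z hzb) hF0
  refine ⟨b, hbd.differentiableOn, ?_, ?_, hb3, ?_, ?_⟩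
  · intro z hz
    exact mul_ne_zero (hk0 z hz) (prod_ne c R s z (fun w hw => (le_Nw c R hR w z (hsb w hw) hz).2))
  · intro z hz
    have h2 := prod_le s (fun w => z - w) (fun w => Nw c R w z) (fun _ => 1) (fun _ => zero_le_one)
      (fun w hw => by rw [mul_one]; exact (le_Nw c R hR w z (hsb w hw) hz).1)
    rw [Multiset.map_const', Multiset.prod_replicate, one_pow, mul_one] at h2
    rw [hfac z, hb, norm_mul]
    show ‖k z‖ * _ ≤ ‖k z * _‖
    rw [norm_mul]
    exact mul_le_mul_of_nonneg_left h2 (norm_nonneg _)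
  · intro ρ hρ hρR z hz hdist
    have hN : Nm g (ball c R) = (s.card : ℝ) := by
      rw [hNm (ball c R) (Subset.refl _), Multiset.filter_eq_self.2 hsb]
    rw [hN, Real.rpow_natCast]
    have h2 := prod_le s (fun w => Nw c R w z) (fun w => z - w) (fun _ => 2 * R / ρ)
      (fun _ => by positivity) (fun w hw => by
        have h3 := hdist w (hsb w hw) (hs w hw).2
        refine (Nw_le c R hR w z (hsb w hw) hz).trans ?_
        rw [mul_div_assoc', le_div_iff₀ hρ]
        nlinarith)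
    rw [Multiset.map_const', Multiset.prod_replicate] at h2
    calc ‖b z‖ = ‖k z‖ * ‖(s.map (fun w => Nw c R w z)).prod‖ := by rw [hb]; exact norm_mul _ _
      _ ≤ ‖k z‖ * (‖(s.map (fun w => z - w)).prod‖ * (2 * R / ρ) ^ s.card) :=
          mul_le_mul_of_nonneg_left h2 (norm_nonneg _)
      _ = ‖g z‖ * (2 * R / ρ) ^ s.card := by
          rw [hfac z, norm_mul, mul_assoc]
  · intro r S hr hrR hS
    have hsub : closedBall c r ⊆ ball c R := closedBall_subset_ball hrR
    rw [hNm _ hsub]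
    have h1 := count_le c R r hr hrR s hsb
    have h2 := hb3 S hS c hcb
    have h3 : ‖b c‖ = ‖k c‖ * R ^ s.card := by
      have h4 : ∀ w, Nw c R w c = (R : ℂ) := by
        intro w
        have hRc : (R : ℂ) ≠ 0 := by exact_mod_cast hR.ne'
        unfold Nw
        rw [sub_self, mul_zero, sub_zero]
        push_cast
        field_simp
      rw [hb]
      simp only [h4]
      rw [Multiset.map_const', Multiset.prod_replicate, norm_mul, norm_pow, Complex.norm_real,
        Real.norm_of_nonneg hR.le]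
    have hgc0 : 0 < ‖g c‖ := norm_pos_iff.2 hgc
    have h5 : (R / r) ^ (s.filter (fun w => w ∈ closedBall c r)).card * ‖g c‖ ≤ S := by
      refine le_trans ?_ h2
      rw [h3, hfac c, norm_mul]
      calc (R / r) ^ (s.filter (fun w => w ∈ closedBall c r)).card *
            (‖k c‖ * ‖(s.map (fun w => c - w)).prod‖) =
            ‖k c‖ * ((R / r) ^ (s.filter (fun w => w ∈ closedBall c r)).card *
              ‖(s.map (fun w => c - w)).prod‖) := by ring
        _ ≤ ‖k c‖ * R ^ s.card := mul_le_mul_of_nonneg_left h1 (norm_nonneg _)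
    rw [← Real.log_pow]
    refine Real.log_le_log (by have := hr.trans hrR; positivity) ?_
    rw [le_div_iff₀ hgc0]
    exact h5

end

end Pool.Agent.H152.AV
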